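import Pool.Agent.L7h62.SQ.Stm2

/-! # Project SQ, second stage, part VAL: valuations in an extension of number fields -/

set_option autoImplicit false

namespace Pool.Agent.L7h47.SQ

open Module NumberField IsDedekindDomain
open Pool.Agent.TeamU (Over Unr act over_act val_act' b2_exists_under)
open Pool.Agent.L7h62.SQ

variable {F L : Type} [Field F] [NumberField F] [Field L] [NumberField L] [Algebra F L]

/-- The valuation of a prime over `v` is a power of the valuation of `v`. -/
lemma over_pow {P : HeightOneSpectrum (𝓞 L)} {v : HeightOneSpectrum (𝓞 F)} (h : Over P v) :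
    ∃ e : ℕ, 1 ≤ e ∧ ∀ a : F, P.valuation L (algebraMap F L a) = v.valuation F a ^ e := by
  have : P.asIdeal.LiesOver v.asIdeal := ⟨h.symm⟩
  exact ⟨v.asIdeal.ramificationIdx' P.asIdeal, Nat.one_le_iff_ne_zero.2
    (Ideal.IsDedekindDomain.ramificationIdx'_ne_zero_of_liesOver P.asIdeal v.ne_bot),
    fun a => (HeightOneSpectrum.valuation_liesOver L v P a).symm⟩

/-- If `exp k ^ e = exp (-1)` then `e = 1`. -/
lemma exp_pow_eq {x : WithZero (Multiplicative ℤ)} {e : ℕ} (h : x ^ e = WithZero.exp (-1 : ℤ)) :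
    e = 1 := by
  have hx : x ≠ 0 := by
    rintro rfl
    rcases Nat.eq_zero_or_pos e with he | he
    · subst he
      rw [pow_zero, ← WithZero.exp_zero, WithZero.exp_inj] at h
      omega
    · rw [zero_pow (by omega)] at h
      exact (WithZero.exp_ne_zero h.symm)
  rw [← WithZero.exp_log hx, ← WithZero.exp_nsmul, WithZero.exp_inj, nsmul_eq_mul] at h
  have h1 : (e : ℤ) ∣ 1 := ⟨-WithZero.log x, by linarith⟩
  have h2 := Int.eq_one_of_dvd_one (by positivity) h1
  exact_mod_cast h2

/-- Part VAL. -/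
theorem s_VAL : S_VAL := by
  intro F L _ _ _ _ _
  refine ⟨fun P v h => ⟨over_pow h, fun σ => ⟨act σ.symm P, over_act σ.symm h, fun x => ?_⟩⟩,
    fun P => ⟨fun hU => ?_, ?_⟩⟩
  · rw [val_act']
    rfl
  · obtain ⟨v, hv⟩ := b2_exists_under (M := F) P
    obtain ⟨a, ha⟩ := v.valuation_exists_uniformizer F
    exact ⟨a, by rw [hU v hv, ha]⟩
  · rintro ⟨a, ha⟩ v hv b
    obtain ⟨e, he, h⟩ := over_pow hv
    rw [h] at ha
    rw [h, exp_pow_eq ha, pow_one]

end Pool.Agent.L7h47.SQ
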